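import Mathlib
import Pool.Agent.Helper99.SZ.Stmts3

/-! Module BR. -/

set_option autoImplicit false

namespace Pool.Helper99.SZ

open NumberField

theorem br_core (hCOU : ST_COU) (hSLD : ST_SLD) (L : Type) [Field L] [NumberField L]
    (D n v0 d : ℕ) (g0 : L) (g : Fin n → L) (nrm : ℤ × (Fin n → ℤ) → ℝ) (G Z Tst ℓ Θ w : ℝ)
    (hD : 1 ≤ D) (hd : 1 ≤ d) (hdv : d ≤ v0) (hG : 1 ≤ G) (hZ : 1 ≤ Z) (hLD : LD L n g0 g nrm G Z)
    (hHT : HT L D n g0 g nrm G Tst d) (hℓ : 1 ≤ ℓ)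
    (hlog : Real.log ((v0.factorial : ℝ) * (Z * G) ^ v0 * nrm (1, 0)) ≤ ℓ)
    (hΘ : 10 ^ 9 * ((v0 : ℝ) + 1) ^ 5 * (D : ℝ) ^ 2 * (1 + ℓ / G) ≤ Θ)
    (z : Fin d → Fin n → ℤ) (hz : LinearIndependent ℤ z) (hw : 0 < w) (hwG : w ≤ G)
    (hnl : ∀ i, nl nrm (z i) w)
    (hU : 8 * ((d : ℝ) + 1) * max (5 * nrm (1, 0) * (8 * d * w / G) ^ d) G * Θ ^ d ≤ nrm (1, 0)) :
    Tst ≤ max (5 * nrm (1, 0) * (8 * d * w / G) ^ d) G * Θ ^ (d + 1) := by
  set h : ℝ := nrm (1, 0) with hh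
  have hh1 : 1 ≤ h := by
    have := hLD.co0 (1, 0)
    simpa using this
  have hG0 : 0 < G := by linarith
  set X : ℝ := max (5 * h * (8 * d * w / G) ^ d) G with hX
  have hXG : G ≤ X := le_max_right _ _
  have hX0 : 0 < X := by linarith
  have hΘ0 : 0 < Θ := by
    refine lt_of_lt_of_le ?_ hΘ
    have : (0 : ℝ) < D := by exact_mod_cast hD
    positivity
  obtain ⟨hZw, hLD'⟩ := hSLD L n g0 g nrm G Z hLD d z w hd hz hnl
  have hfac : (1 : ℝ) ≤ (d.factorial : ℝ) := by exact_mod_cast Nat.one_le_iff_ne_zero.2 d.factorial_ne_zero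
  set Z2 : ℝ := (d.factorial : ℝ) * (Z * w) ^ (d - 1) * Z with hZ2
  have h1Z : 1 ≤ Z2 := by
    have h1 : 1 ≤ (Z * w) ^ (d - 1) := one_le_pow₀ hZw
    exact one_le_mul_of_one_le_of_one_le (one_le_mul_of_one_le_of_one_le hfac h1) hZ
  have hZG : 1 ≤ Z * G := one_le_mul_of_one_le_of_one_le hZ hG
  have hZ2le : Z2 ≤ (v0.factorial : ℝ) * (Z * G) ^ v0 := by
    have h1 : (Z * w) ^ (d - 1) ≤ (Z * G) ^ (d - 1) :=
      pow_le_pow_left₀ (by positivity) (mul_le_mul_of_nonneg_left hwG (by linarith)) _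
    have h2 : Z ≤ Z * G := le_mul_of_one_le_right (by linarith) hG
    have h3 : (Z * w) ^ (d - 1) * Z ≤ (Z * G) ^ (d - 1) * (Z * G) :=
      mul_le_mul h1 h2 (by linarith) (by positivity)
    have h4 : (Z * G) ^ (d - 1) * (Z * G) = (Z * G) ^ d := by
      rw [← pow_succ]
      congr 1
      omega
    have h5 : (Z * G) ^ d ≤ (Z * G) ^ v0 := pow_le_pow_right₀ hZG hdv
    have h6 : (d.factorial : ℝ) ≤ v0.factorial := by exact_mod_cast Nat.factorial_le hdv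
    rw [hZ2, mul_assoc]
    exact mul_le_mul h6 (by rw [h4] at h3; exact h3.trans h5) (by positivity) (by positivity)
  refine hHT z hz Z2 X (8 * ((d : ℝ) + 1) * X * Θ ^ d) ℓ Θ h1Z hXG hℓ ?_ rfl ?_ hLD' ?_
  · refine le_trans ?_ hΘ
    have : (d : ℝ) ≤ v0 := by exact_mod_cast hdv
    have h7 : 0 ≤ 1 + ℓ / G := by positivity
    gcongr
  · refine le_trans (Real.log_le_log (by positivity) ?_) hlog
    exact mul_le_mul hZ2le hU (by positivity) (by positivity)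
  · intro ρ hρ1 hρ2
    have hρ0 : 0 < ρ := by linarith
    refine (hCOU n nrm hLD.add hLD.smul (by linarith) d z w hd hw hnl ρ hρ0 (hρ2.trans hU)
      (hLD'.fin ρ)).trans (mul_le_mul_of_nonneg_right ?_ (Nat.cast_nonneg _))
    have h8 : 5 * h * (8 * d * w) ^ d = 5 * h * (8 * d * w / G) ^ d * G ^ d := by
      rw [div_pow]
      field_simp
    rw [← hh, h8]
    exact mul_le_mul_of_nonneg_right (le_max_left _ _) (by positivity)

theorem st_BR (hSEL : ST_SEL) (hCOU : ST_COU) (hSLD : ST_SLD) : ST_BR := by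
  intro L _ _ D n v0 g0 g nrm G Z X0 ρ0 Tst H η ℓ Θ hD hv0 hG hZ hX0 hLD hHT hgr hT0 hH hhH hTD hη
    hηH hℓ hlog hΘ
  set h : ℝ := nrm (1, 0) with hh
  have hh1 : 1 ≤ h := by
    have := hLD.co0 (1, 0)
    simpa using this
  by_cases hcase : Tst ≤ G * Θ ^ (v0 + 1)
  · exact Or.inl hcase
  right
  push Not at hcase
  have hD1 : (1 : ℝ) ≤ D := by exact_mod_cast hD
  have hv1 : (1 : ℝ) ≤ v0 := by exact_mod_cast hv0
  have hG0 : 0 < G := by linarith
  have hΘ1 : 10 ^ 9 * ((v0 : ℝ) + 1) * D ≤ Θ := by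
    refine le_trans ?_ hΘ
    have h1 : (v0 : ℝ) + 1 ≤ ((v0 : ℝ) + 1) ^ 5 := le_self_pow₀ (by linarith) (by norm_num)
    have h2 : (D : ℝ) ≤ (D : ℝ) ^ 2 := le_self_pow₀ hD1 (by norm_num)
    have h3 : 1 ≤ 1 + ℓ / G := by
      have : 0 ≤ ℓ / G := by positivity
      linarith
    calc 10 ^ 9 * ((v0 : ℝ) + 1) * D ≤ 10 ^ 9 * ((v0 : ℝ) + 1) ^ 5 * (D : ℝ) ^ 2 := by gcongr
      _ ≤ 10 ^ 9 * ((v0 : ℝ) + 1) ^ 5 * (D : ℝ) ^ 2 * (1 + ℓ / G) :=
          le_mul_of_one_le_right (by positivity) h3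
  have hΘv : 10 ^ 9 * ((v0 : ℝ) + 1) ≤ Θ :=
    (le_mul_of_one_le_right (by positivity) hD1).trans hΘ1
  have hΘb : (10 : ℝ) ^ 9 ≤ Θ :=
    (le_mul_of_one_le_right (by positivity) (by linarith)).trans hΘv
  have hΘ0 : 0 < Θ := by linarith
  have hΘone : 1 ≤ Θ := by linarith
  have hη0 : 0 < η := by linarith
  have hH0 : 0 < H := by linarith
  have hh0 : 0 < h := by linarith
  set w : ℝ := G / (8 * v0 * Θ ^ 2 * η) with hw
  have hw0 : 0 < w := by positivity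
  have hw8 : 1 ≤ 8 * v0 * Θ ^ 2 * η := by
    have h1 : 1 ≤ Θ ^ 2 := one_le_pow₀ hΘone
    have h2 : 1 ≤ 8 * (v0 : ℝ) := by linarith
    exact one_le_mul_of_one_le_of_one_le (one_le_mul_of_one_le_of_one_le h2 h1) hη
  have hwG : w ≤ G := div_le_self hG0.le hw8
  set q : ℕ := ⌈160 * H * Θ ^ 2⌉₊ with hq
  have hq1 : 160 * H * Θ ^ 2 ≤ q := Nat.le_ceil _
  have hHΘ : 1 ≤ H * Θ ^ 2 := one_le_mul_of_one_le_of_one_le hH (one_le_pow₀ hΘone)
  have hq2 : (q : ℝ) ≤ 200 * H * Θ ^ 2 := by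
    have h1 : (q : ℝ) < 160 * H * Θ ^ 2 + 1 := Nat.ceil_lt_add_one (by positivity)
    linarith
  have hq0 : 0 < q := Nat.ceil_pos.2 (by positivity)
  have hq0' : (0 : ℝ) < q := by exact_mod_cast hq0
  have hq1' : (1 : ℝ) ≤ q := by exact_mod_cast hq0
  -- lower bound for h
  have hhlow : G * Θ ^ (v0 + 1) < 4 * D * h := lt_of_lt_of_le hcase hTD
  have hlow : ∀ d : ℕ, d ≤ v0 → 8 * ((d : ℝ) + 1) * G * Θ ^ d ≤ h := by
    intro d hdv
    have h1 : (d : ℝ) ≤ v0 := by exact_mod_cast hdv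
    have h2 : Θ ^ d ≤ Θ ^ v0 := pow_le_pow_right₀ hΘone hdv
    have h3 : G * Θ ^ (v0 + 1) = G * Θ ^ v0 * Θ := by ring
    have h4 : 4 * D * (8 * ((d : ℝ) + 1) * G * Θ ^ d) ≤ 4 * D * h := by
      calc 4 * D * (8 * ((d : ℝ) + 1) * G * Θ ^ d) ≤
          4 * D * (8 * ((v0 : ℝ) + 1) * G * Θ ^ v0) := by gcongr
        _ = G * Θ ^ v0 * (32 * ((v0 : ℝ) + 1) * D) := by ring
        _ ≤ G * Θ ^ v0 * Θ := by
            refine mul_le_mul_of_nonneg_left (le_trans ?_ hΘ1) (by positivity)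
            gcongr
            norm_num
        _ ≤ 4 * D * h := by rw [← h3]; exact hhlow.le
    exact le_of_mul_le_mul_left h4 (by positivity)
  have hTH : h / H ≤ Tst := by
    rw [div_le_iff₀ hH0]
    linarith
  rcases hSEL n nrm hLD.add hLD.smul hLD.fin (by linarith) X0 ρ0 w hX0 hw0 hgr v0 q hv0 hq0 with
    ⟨z, hz, hnl⟩ | ⟨y, hy, hnl⟩ | h3
  · exfalso
    have e1 : 8 * (v0 : ℝ) * w / G = 1 / (Θ ^ 2 * η) := by
      rw [hw]
      field_simp
    have hA1 : 8 * ((v0 : ℝ) + 1) * (5 * h * (8 * v0 * w / G) ^ v0) * Θ ^ v0 ≤ h := by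
      rw [e1, div_pow, one_pow, mul_pow, ← pow_mul]
      have h1 : 1 ≤ η ^ v0 := one_le_pow₀ hη
      have h2 : Θ ^ (2 * v0) = Θ ^ v0 * Θ ^ v0 := by rw [two_mul, pow_add]
      have h3 : Θ ≤ Θ ^ v0 := le_self_pow₀ hΘone (by omega)
      have h4 : 40 * ((v0 : ℝ) + 1) ≤ Θ ^ v0 * η ^ v0 := by
        have : 40 * ((v0 : ℝ) + 1) ≤ Θ := by linarith
        calc 40 * ((v0 : ℝ) + 1) ≤ Θ ^ v0 := this.trans h3
          _ ≤ Θ ^ v0 * η ^ v0 := le_mul_of_one_le_right (by positivity) h1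
      rw [h2]
      have h5 : 8 * ((v0 : ℝ) + 1) * (5 * h * (1 / (Θ ^ v0 * Θ ^ v0 * η ^ v0))) * Θ ^ v0 =
          h * (40 * ((v0 : ℝ) + 1) / (Θ ^ v0 * η ^ v0)) := by
        field_simp
        ring
      rw [h5]
      refine mul_le_of_le_one_right hh0.le ?_
      exact (div_le_one (by positivity)).2 h4
    have hT := br_core hCOU hSLD L D n v0 v0 g0 g nrm G Z Tst ℓ Θ w hD hv0 le_rfl hG hZ hLD
      (hHT v0 hv0 le_rfl) hℓ hlog hΘ z hz hw0 hwG hnl (by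
        rw [← hh]
        rcases max_choice (5 * h * (8 * v0 * w / G) ^ v0) G with hm | hm <;> rw [hm]
        · exact hA1
        · exact hlow v0 le_rfl)
    rw [← hh] at hT
    rcases max_choice (5 * h * (8 * v0 * w / G) ^ v0) G with hm | hm <;> rw [hm] at hT
    · have h6 : 5 * h * (8 * v0 * w / G) ^ v0 * Θ ^ (v0 + 1) ≤ h / (2 * H) := by
        rw [e1, div_pow, one_pow, mul_pow, ← pow_mul]
        have h2 : Θ ^ (2 * v0) = Θ ^ v0 * Θ ^ v0 := by rw [two_mul, pow_add]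
        have h3 : Θ ≤ Θ ^ v0 := le_self_pow₀ hΘone (by omega)
        rw [h2]
        have h5 : 5 * h * (1 / (Θ ^ v0 * Θ ^ v0 * η ^ v0)) * Θ ^ (v0 + 1) =
            5 * h * Θ / (Θ ^ v0 * η ^ v0) := by
          rw [pow_succ]
          field_simp
        rw [h5, div_le_div_iff₀ (by positivity) (by positivity)]
        have h7 : Θ * (10 * H) ≤ Θ ^ v0 * η ^ v0 := mul_le_mul h3 hηH (by positivity) (by positivity)
        calc 5 * h * Θ * (2 * H) = h * (Θ * (10 * H)) := by ring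
          _ ≤ h * (Θ ^ v0 * η ^ v0) := mul_le_mul_of_nonneg_left h7 hh0.le
      have h7 : h / (2 * H) < h / H := div_lt_div_of_pos_left hh0 hH0 (by linarith)
      linarith
    · linarith
  · exfalso
    set w2 : ℝ := 2 * w / q with hw2
    have hw20 : 0 < w2 := by positivity
    have hq160 : (160 : ℝ) ≤ q := by
      refine le_trans ?_ hq1
      linarith
    have hw2G : w2 ≤ G := by
      refine le_trans ?_ hwG
      rw [hw2, div_le_iff₀ hq0', mul_comm]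
      exact mul_le_mul_of_nonneg_left (by linarith) hw0.le
    have e1 : 8 * ((1 : ℕ) : ℝ) * w2 / G ≤ 1 / (80 * H * Θ ^ 4) := by
      have h1 : 8 * ((1 : ℕ) : ℝ) * w2 / G = 2 / (v0 * Θ ^ 2 * η * q) := by
        rw [hw2, hw]
        field_simp
        norm_num
      rw [h1, div_le_div_iff₀ (by positivity) (by positivity)]
      have h2 : 1 ≤ (v0 : ℝ) * η := one_le_mul_of_one_le_of_one_le hv1 hη
      have h3 : 160 * H * Θ ^ 2 * Θ ^ 2 ≤ q * Θ ^ 2 := mul_le_mul_of_nonneg_right hq1 (by positivity)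
      have h4 : (q : ℝ) * Θ ^ 2 ≤ q * Θ ^ 2 * (v0 * η) := le_mul_of_one_le_right (by positivity) h2
      calc 2 * (80 * H * Θ ^ 4) = 160 * H * Θ ^ 2 * Θ ^ 2 := by ring
        _ ≤ q * Θ ^ 2 * (v0 * η) := h3.trans h4
        _ = 1 * (v0 * Θ ^ 2 * η * q) := by ring
    have hA : 5 * h * (8 * ((1 : ℕ) : ℝ) * w2 / G) ^ 1 ≤ h / (16 * H * Θ ^ 4) := by
      rw [pow_one]
      calc 5 * h * (8 * ((1 : ℕ) : ℝ) * w2 / G) ≤ 5 * h * (1 / (80 * H * Θ ^ 4)) := by gcongr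
        _ = h / (16 * H * Θ ^ 4) := by
            field_simp
            norm_num
    have hLI : LinearIndependent ℤ (fun _ : Fin 1 => y) := by
      rw [Fintype.linearIndependent_iff]
      intro c hc i
      have h1 : c 0 • y = 0 := by simpa using hc
      rcases smul_eq_zero.1 h1 with h | h
      · rw [Subsingleton.elim i 0]; exact h
      · exact absurd h hy
    have hT := br_core hCOU hSLD L D n v0 1 g0 g nrm G Z Tst ℓ Θ w2 hD le_rfl hv0 hG hZ hLD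
      (hHT 1 le_rfl hv0) hℓ hlog hΘ (fun _ => y) hLI hw20 hw2G (fun _ => hnl) (by
        rw [← hh]
        rcases max_choice (5 * h * (8 * ((1 : ℕ) : ℝ) * w2 / G) ^ 1) G with hm | hm <;> rw [hm]
        · calc 8 * (((1 : ℕ) : ℝ) + 1) * (5 * h * (8 * ((1 : ℕ) : ℝ) * w2 / G) ^ 1) * Θ ^ 1 ≤
              8 * (((1 : ℕ) : ℝ) + 1) * (h / (16 * H * Θ ^ 4)) * Θ ^ 1 := by gcongr
            _ = h * (1 / (H * Θ ^ 3)) := by
                push_cast
                field_simp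
                norm_num
            _ ≤ h := by
                refine mul_le_of_le_one_right hh0.le ((div_le_one (by positivity)).2 ?_)
                exact one_le_mul_of_one_le_of_one_le hH (one_le_pow₀ hΘone)
        · exact hlow 1 hv0)
    rw [← hh] at hT
    rcases max_choice (5 * h * (8 * ((1 : ℕ) : ℝ) * w2 / G) ^ 1) G with hm | hm <;> rw [hm] at hT
    · have h6 : 5 * h * (8 * ((1 : ℕ) : ℝ) * w2 / G) ^ 1 * Θ ^ (1 + 1) ≤ h / (2 * H) := by
        calc 5 * h * (8 * ((1 : ℕ) : ℝ) * w2 / G) ^ 1 * Θ ^ (1 + 1) ≤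
            h / (16 * H * Θ ^ 4) * Θ ^ (1 + 1) := by gcongr
          _ = h / (16 * H * Θ ^ 2) := by
              field_simp
          _ ≤ h / (2 * H) := by
              refine div_le_div_of_nonneg_left hh0.le (by positivity) ?_
              have h9 : H ≤ H * Θ ^ 2 := le_mul_of_one_le_right hH0.le (one_le_pow₀ hΘone)
              linarith
      have h7 : h / (2 * H) < h / H := div_lt_div_of_pos_left hh0 hH0 (by linarith)
      linarith
    · have h8 : G * Θ ^ (1 + 1) ≤ G * Θ ^ (v0 + 1) :=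
        mul_le_mul_of_nonneg_left (pow_le_pow_right₀ hΘone (by omega)) hG0.le
      linarith
  · have h4 : h * (w / 2) ^ n ≤ 3 * X0 * (200 * H * Θ ^ 2) ^ v0 := by
      calc h * (w / 2) ^ n = (w / 2) ^ n * nrm (1, 0) := by rw [hh]; ring
        _ ≤ 3 * X0 * (q : ℝ) ^ (v0 - 1) := h3
        _ ≤ 3 * X0 * (200 * H * Θ ^ 2) ^ v0 := by
            refine mul_le_mul_of_nonneg_left ?_ (by positivity)
            calc (q : ℝ) ^ (v0 - 1) ≤ (q : ℝ) ^ v0 := pow_le_pow_right₀ hq1' (by omega)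
              _ ≤ (200 * H * Θ ^ 2) ^ v0 := pow_le_pow_left₀ hq0'.le hq2 _
    have h5 : (16 * v0 * Θ ^ 2 * η / G) ^ n * (w / 2) ^ n = 1 := by
      rw [← mul_pow, hw]
      have : 16 * ↑v0 * Θ ^ 2 * η / G * (G / (8 * ↑v0 * Θ ^ 2 * η) / 2) = 1 := by
        field_simp
        norm_num
      rw [this, one_pow]
    have h6 : 0 < (16 * v0 * Θ ^ 2 * η / G) ^ n := by positivity
    calc h = h * ((16 * v0 * Θ ^ 2 * η / G) ^ n * (w / 2) ^ n) := by rw [h5, mul_one]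
      _ = h * (w / 2) ^ n * (16 * v0 * Θ ^ 2 * η / G) ^ n := by ring
      _ ≤ 3 * X0 * (200 * H * Θ ^ 2) ^ v0 * (16 * v0 * Θ ^ 2 * η / G) ^ n :=
          mul_le_mul_of_nonneg_right h4 h6.le
      _ = 3 * X0 * (16 * v0 * Θ ^ 2 * η / G) ^ n * (200 * H * Θ ^ 2) ^ v0 := by ring

end Pool.Helper99.SZ
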