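import Mathlib
import Pool.Agent.Helper99.SZ.Stmts3

/-! Module COU. -/

set_option autoImplicit false

namespace Pool.Helper99.SZ

open NumberField

section

variable {n : ℕ} {nrm : ℤ × (Fin n → ℤ) → ℝ}

theorem cou_zero (hs : ∀ (k : ℤ) a, nrm (k • a) = |(k : ℝ)| * nrm a) : nrm 0 = 0 := by
  have := hs 0 0
  simpa using this

theorem cou_nonneg (ha : ∀ a b, nrm (a + b) ≤ nrm a + nrm b)
    (hs : ∀ (k : ℤ) a, nrm (k • a) = |(k : ℝ)| * nrm a) (a : ℤ × (Fin n → ℤ)) : 0 ≤ nrm a := by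
  have h0 := cou_zero hs
  have h1 := ha a (-a)
  have h2 : nrm (-a) = nrm a := by
    have := hs (-1) a
    simpa using this
  rw [add_neg_cancel, h0, h2] at h1
  linarith

/-- distance estimate for one combination -/
theorem cou_dist (ha : ∀ a b, nrm (a + b) ≤ nrm a + nrm b)
    (hs : ∀ (k : ℤ) a, nrm (k • a) = |(k : ℝ)| * nrm a) (d : ℕ) (z : Fin d → Fin n → ℤ) (w : ℝ)
    (Q : ℕ) (hQ : 1 ≤ Q) (j : Fin d → ℤ) (hj : ∀ i, nrm (j i, (Q : ℤ) • z i) ≤ Q * w) (k : ℤ)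
    (x : Fin d → ℤ) :
    nrm (k, ∑ i, x i • z i) ≤ |(k : ℝ) - ((∑ i, x i * j i : ℤ) : ℝ) / Q| * nrm (1, 0) +
      w * ∑ i, |(x i : ℝ)| := by
  have hQ0 : (0 : ℝ) < Q := by exact_mod_cast hQ
  have h0 := cou_zero hs
  have e : (Q : ℤ) • ((k, ∑ i, x i • z i) : ℤ × (Fin n → ℤ)) =
      ((Q : ℤ) * k - ∑ i, x i * j i) • ((1, 0) : ℤ × (Fin n → ℤ)) +
        ∑ i, x i • ((j i, (Q : ℤ) • z i) : ℤ × (Fin n → ℤ)) := by
    refine Prod.ext ?_ ?_
    · simp [Prod.fst_sum]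
    · simp only [Prod.smul_snd, Prod.snd_add, Prod.snd_sum, smul_zero, zero_add, Finset.smul_sum]
      refine Finset.sum_congr rfl fun i _ => ?_
      rw [smul_comm]
  have h1 : nrm ((Q : ℤ) • ((k, ∑ i, x i • z i) : ℤ × (Fin n → ℤ))) ≤
      |(((Q : ℤ) * k - ∑ i, x i * j i : ℤ) : ℝ)| * nrm (1, 0) + ∑ i, |(x i : ℝ)| * (Q * w) := by
    rw [e]
    refine (ha _ _).trans (add_le_add (le_of_eq (hs _ _)) ?_)
    refine (Finset.le_sum_of_subadditive nrm h0.le ha _ _).trans (Finset.sum_le_sum fun i _ => ?_)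
    rw [hs]
    exact mul_le_mul_of_nonneg_left (hj i) (abs_nonneg _)
  rw [hs] at h1
  have h2 : |(((Q : ℤ) : ℤ) : ℝ)| = Q := by
    simp
  rw [h2] at h1
  have h3 : |(((Q : ℤ) * k - ∑ i, x i * j i : ℤ) : ℝ)| =
      Q * |(k : ℝ) - ((∑ i, x i * j i : ℤ) : ℝ) / Q| := by
    have : (((Q : ℤ) * k - ∑ i, x i * j i : ℤ) : ℝ) =
        Q * ((k : ℝ) - ((∑ i, x i * j i : ℤ) : ℝ) / Q) := by
      rw [mul_sub, mul_div_cancel₀ _ hQ0.ne']
      push_cast
      ring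
    rw [this, abs_mul, abs_of_pos hQ0]
  rw [h3, ← Finset.sum_mul] at h1
  have h4 : (Q : ℝ) * nrm (k, ∑ i, x i • z i) ≤
      Q * (|(k : ℝ) - ((∑ i, x i * j i : ℤ) : ℝ) / Q| * nrm (1, 0) + w * ∑ i, |(x i : ℝ)|) := by
    refine h1.trans (le_of_eq ?_)
    ring
  exact le_of_mul_le_mul_left h4 hQ0

/-- common denominator -/
theorem cou_common (hs : ∀ (k : ℤ) a, nrm (k • a) = |(k : ℝ)| * nrm a) (d : ℕ)
    (z : Fin d → Fin n → ℤ) (w : ℝ) (h : ∀ i, nl nrm (z i) w) :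
    ∃ (Q : ℕ) (j : Fin d → ℤ), 1 ≤ Q ∧ ∀ i, nrm (j i, (Q : ℤ) • z i) ≤ Q * w := by
  choose q hq j hj using h
  refine ⟨∏ i, q i, fun i => (∏ k ∈ Finset.univ.erase i, (q k : ℤ)) * j i, ?_, fun i => ?_⟩
  · exact Nat.one_le_iff_ne_zero.2 (Finset.prod_ne_zero_iff.2 fun i _ =>
      Nat.one_le_iff_ne_zero.1 (hq i))
  · have e1 : ((∏ i, q i : ℕ) : ℤ) = (∏ k ∈ Finset.univ.erase i, (q k : ℤ)) * (q i : ℤ) := by
      rw [Finset.prod_erase_mul _ _ (Finset.mem_univ i)]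
      push_cast
      rfl
    have e2 : (((∏ k ∈ Finset.univ.erase i, (q k : ℤ)) * j i,
        ((∏ i, q i : ℕ) : ℤ) • z i) : ℤ × (Fin n → ℤ)) =
        (∏ k ∈ Finset.univ.erase i, (q k : ℤ)) • ((j i, (q i : ℤ) • z i) : ℤ × (Fin n → ℤ)) := by
      rw [e1, mul_smul]
      rfl
    rw [e2, hs]
    have e3 : |((∏ k ∈ Finset.univ.erase i, (q k : ℤ) : ℤ) : ℝ)| =
        ∏ k ∈ Finset.univ.erase i, (q k : ℝ) := by
      push_cast
      exact abs_of_nonneg (Finset.prod_nonneg fun k _ => Nat.cast_nonneg _)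
    have e4 : ((∏ i, q i : ℕ) : ℝ) = (∏ k ∈ Finset.univ.erase i, (q k : ℝ)) * (q i : ℝ) := by
      rw [Finset.prod_erase_mul _ _ (Finset.mem_univ i)]
      push_cast
      rfl
    rw [e3, e4, mul_assoc]
    exact mul_le_mul_of_nonneg_left (hj i) (Finset.prod_nonneg fun k _ => Nat.cast_nonneg _)

end

theorem st_COU : ST_COU := by
  intro n nrm ha hs hp d z w hd hw hnl ρ hρ hρh hfin
  obtain ⟨Q, j, hQ, hj⟩ := cou_common hs d z w hnl
  set h : ℝ := nrm (1, 0) with hh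
  have hd0 : (0 : ℝ) < d := by exact_mod_cast hd
  have hQ0 : (0 : ℝ) < Q := by exact_mod_cast hQ
  have h8 : 0 < 8 * (d : ℝ) * w := by positivity
  let b : ℕ := ⌊ρ / (8 * d * w)⌋₊
  have hb1 : (b : ℝ) ≤ ρ / (8 * d * w) := Nat.floor_le (by positivity)
  have hb2 : ρ / (8 * d * w) < b + 1 := Nat.lt_floor_add_one _
  let M : ℕ := ⌈4 * h / ρ⌉₊
  have hM0 : 0 < M := Nat.ceil_pos.2 (by positivity)
  have hM0' : (0 : ℝ) < M := by exact_mod_cast hM0
  have hM1 : 4 * h / ρ ≤ M := Nat.le_ceil _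
  have hM2 : (M : ℝ) ≤ 5 * h / ρ := by
    have h1 : (M : ℝ) < 4 * h / ρ + 1 := Nat.ceil_lt_add_one (by positivity)
    have h2 : 1 ≤ h / ρ := (one_le_div hρ).2 hρh
    have h3 : 5 * h / ρ = 4 * h / ρ + h / ρ := by ring
    linarith
  let B : Finset (Fin d → ℤ) := Fintype.piFinset fun _ => Finset.Icc (-(b : ℤ)) b
  have hB : (ρ / (8 * d * w)) ^ d ≤ (B.card : ℝ) := by
    have h1 : B.card = (2 * b + 1) ^ d := by
      simp only [B, Fintype.card_piFinset, Int.card_Icc, Finset.prod_const, Finset.card_univ,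
        Fintype.card_fin]
      congr 1
      omega
    rw [h1]
    push_cast
    refine pow_le_pow_left₀ (by positivity) ?_ _
    have : (0 : ℝ) ≤ b := Nat.cast_nonneg _
    linarith
  let J : (Fin d → ℤ) → ℤ := fun x => ∑ i, x i * j i
  let f : (Fin d → ℤ) → ℕ := fun x => ⌊Int.fract ((J x : ℝ) / Q) * M⌋₊
  have hf : ∀ x ∈ B, f x ∈ Finset.range M := by
    intro x _
    rw [Finset.mem_range]
    refine (Nat.floor_lt (mul_nonneg (Int.fract_nonneg _) hM0'.le)).2 ?_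
    calc Int.fract ((J x : ℝ) / Q) * M < 1 * M := mul_lt_mul_of_pos_right (Int.fract_lt_one _) hM0'
      _ = M := one_mul _
  obtain ⟨y, hy⟩ : ∃ y, B.card ≤ M * (B.filter fun x => f x = y).card := by
    by_contra hc
    push Not at hc
    have h1 := Finset.card_eq_sum_card_fiberwise hf
    have h2 : ∑ y ∈ Finset.range M, M * (B.filter fun x => f x = y).card <
        ∑ y ∈ Finset.range M, B.card :=
      Finset.sum_lt_sum_of_nonempty (Finset.nonempty_range_iff.2 hM0.ne') fun y _ => hc y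
    rw [← Finset.mul_sum, ← h1, Finset.sum_const, Finset.card_range, smul_eq_mul] at h2
    exact lt_irrefl _ h2
  set F := B.filter fun x => f x = y with hF
  have hBpos : 0 < B.card := by
    have : (0 : ℝ) < (B.card : ℝ) := lt_of_lt_of_le (by positivity) hB
    exact_mod_cast this
  have hFne : F.Nonempty := by
    rw [← Finset.card_pos]
    by_contra hc
    have : F.card = 0 := by omega
    rw [this] at hy
    omega
  obtain ⟨x0, hx0⟩ := hFne
  have hfl : ∀ x, f x = y → (y : ℝ) ≤ Int.fract ((J x : ℝ) / Q) * M ∧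
      Int.fract ((J x : ℝ) / Q) * M < y + 1 := by
    intro x hx
    rw [← hx]
    exact ⟨Nat.floor_le (mul_nonneg (Int.fract_nonneg _) hM0'.le), Nat.lt_floor_add_one _⟩
  let φ : (Fin d → ℤ) → ℤ × (Fin d → ℤ) := fun x => (⌊(J x : ℝ) / Q⌋ - ⌊(J x0 : ℝ) / Q⌋, x - x0)
  have hφ : Function.Injective φ := by
    intro x x' hxx
    have := congrArg Prod.snd hxx
    simpa [φ] using this
  have hmem : ∀ x ∈ F, nrm ((φ x).1, ∑ i, (φ x).2 i • z i) ≤ ρ := by
    intro x hx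
    refine (cou_dist ha hs d z w Q hQ j hj _ _).trans ?_
    rw [← hh]
    have hxB := (Finset.mem_filter.1 hx)
    have hx0B := (Finset.mem_filter.1 hx0)
    obtain ⟨u1, u2⟩ := hfl x hxB.2
    obtain ⟨v1, v2⟩ := hfl x0 hx0B.2
    have e1 : ((∑ i, (φ x).2 i * j i : ℤ) : ℝ) = (J x : ℝ) - J x0 := by
      rw [← Int.cast_sub]
      congr 1
      simp only [φ, J, Pi.sub_apply, sub_mul, Finset.sum_sub_distrib]
    have h1 : |(((φ x).1 : ℤ) : ℝ) - ((∑ i, (φ x).2 i * j i : ℤ) : ℝ) / Q| ≤ 1 / M := by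
      rw [e1, sub_div]
      have e2 : (((φ x).1 : ℤ) : ℝ) - ((J x : ℝ) / Q - (J x0 : ℝ) / Q) =
          Int.fract ((J x0 : ℝ) / Q) - Int.fract ((J x : ℝ) / Q) := by
        simp only [φ, Int.fract]
        push_cast
        ring
      rw [e2, abs_le]
      constructor
      · rw [neg_le, neg_sub, le_div_iff₀ hM0']
        nlinarith
      · rw [le_div_iff₀ hM0']
        nlinarith
    have h2 : |(((φ x).1 : ℤ) : ℝ) - ((∑ i, (φ x).2 i * j i : ℤ) : ℝ) / Q| * h ≤ ρ / 4 := by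
      refine (mul_le_mul_of_nonneg_right h1 hp.le).trans ?_
      rw [one_div, inv_mul_le_iff₀ hM0']
      rw [div_le_iff₀ hρ] at hM1
      linarith
    have h3 : ∑ i, |(((φ x).2 i : ℤ) : ℝ)| ≤ d * (2 * b) := by
      have : ∀ i ∈ (Finset.univ : Finset (Fin d)), |(((φ x).2 i : ℤ) : ℝ)| ≤ 2 * b := by
        intro i _
        have a1 := Finset.mem_Icc.1 (Fintype.mem_piFinset.1 hxB.1 i)
        have a2 := Finset.mem_Icc.1 (Fintype.mem_piFinset.1 hx0B.1 i)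
        have a3 : |x i - x0 i| ≤ 2 * (b : ℤ) := by
          rw [abs_le]
          constructor <;> linarith [a1.1, a1.2, a2.1, a2.2]
        have a4 : (((φ x).2 i : ℤ) : ℝ) = ((x i - x0 i : ℤ) : ℝ) := rfl
        rw [a4, ← Int.cast_abs]
        exact_mod_cast a3
      refine (Finset.sum_le_sum this).trans (le_of_eq ?_)
      simp
    have h4 : w * ∑ i, |(((φ x).2 i : ℤ) : ℝ)| ≤ ρ / 4 := by
      refine (mul_le_mul_of_nonneg_left h3 hw.le).trans ?_
      have : (b : ℝ) * (8 * d * w) ≤ ρ := (le_div_iff₀ h8).1 hb1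
      nlinarith
    linarith
  have hcard : (F.card : ℝ) ≤
      ({a : ℤ × (Fin d → ℤ) | nrm (a.1, ∑ i, a.2 i • z i) ≤ ρ}.ncard : ℝ) := by
    have h1 : F.card = (F.image φ).card := (Finset.card_image_of_injective _ hφ).symm
    have h2 : ((F.image φ : Finset (ℤ × (Fin d → ℤ))) : Set (ℤ × (Fin d → ℤ))) ⊆
        {a : ℤ × (Fin d → ℤ) | nrm (a.1, ∑ i, a.2 i • z i) ≤ ρ} := by
      intro a ha'
      rw [Finset.coe_image] at ha'
      obtain ⟨x, hx, rfl⟩ := ha'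
      exact hmem x hx
    have h3 := Set.ncard_le_ncard h2 hfin
    rw [Set.ncard_coe_finset, ← h1] at h3
    exact_mod_cast h3
  have hy' : (B.card : ℝ) ≤ M * F.card := by exact_mod_cast hy
  have hfinal : (ρ / (8 * d * w)) ^ d ≤
      5 * h / ρ * ({a : ℤ × (Fin d → ℤ) | nrm (a.1, ∑ i, a.2 i • z i) ≤ ρ}.ncard : ℝ) :=
    hB.trans (hy'.trans (mul_le_mul hM2 hcard (Nat.cast_nonneg _) (by positivity)))
  rw [div_pow, div_le_iff₀ (by positivity)] at hfinal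
  calc ρ ^ (d + 1) = ρ ^ d * ρ := pow_succ _ _
    _ ≤ 5 * h / ρ * ({a : ℤ × (Fin d → ℤ) | nrm (a.1, ∑ i, a.2 i • z i) ≤ ρ}.ncard : ℝ) *
        (8 * d * w) ^ d * ρ := mul_le_mul_of_nonneg_right hfinal hρ.le
    _ = 5 * h * (8 * d * w) ^ d *
        ({a : ℤ × (Fin d → ℤ) | nrm (a.1, ∑ i, a.2 i • z i) ≤ ρ}.ncard : ℝ) := by
      field_simp

end Pool.Helper99.SZ
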