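import Mathlib
import Pool.Agent.Helper99.SZ.Stmts3
import Pool.Agent.Helper86.BK.MINOR

/-! Module SLD. -/

set_option autoImplicit false

namespace Pool.Helper99.SZ

open NumberField

theorem sld_prod {L : Type} [Field L] {n d : ℕ} (g : Fin n → L) (hg : ∀ i, g i ≠ 0)
    (z : Fin d → Fin n → ℤ) (x : Fin d → ℤ) :
    ∏ i, (∏ j, g j ^ (z i j)) ^ (x i) = ∏ j, g j ^ ((∑ i, x i • z i) j) := by
  have h1 : ∀ i, (∏ j, g j ^ (z i j)) ^ (x i) = ∏ j, g j ^ (x i * z i j) := by
    intro i
    rw [← Finset.prod_zpow]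
    refine Finset.prod_congr rfl fun j _ => ?_
    rw [← zpow_mul, mul_comm]
  simp only [h1]
  rw [Finset.prod_comm]
  refine Finset.prod_congr rfl fun j _ => ?_
  have h2 : (∑ i, x i • z i) j = ∑ i, x i * z i j := by
    simp [Finset.sum_apply]
  rw [h2]
  have h3 : ∀ s : Finset (Fin d), ∏ i ∈ s, g j ^ (x i * z i j) = g j ^ (∑ i ∈ s, x i * z i j) := by
    intro s
    induction s using Finset.induction_on with
    | empty => simp
    | insert a s ha ih => rw [Finset.prod_insert ha, Finset.sum_insert ha, ih, zpow_add₀ (hg j)]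
  exact h3 _

theorem sld_inj {n d : ℕ} {z : Fin d → Fin n → ℤ} (hz : LinearIndependent ℤ z) (x : Fin d → ℤ)
    (hx : ∑ i, x i • z i = 0) : x = 0 := by
  funext i
  exact Fintype.linearIndependent_iff.1 hz x hx i

/-- a nonzero minor -/
theorem sld_minor {n d : ℕ} {z : Fin d → Fin n → ℤ} (hz : LinearIndependent ℤ z) :
    ∃ J : Fin d → Fin n, (Matrix.of (fun k i => z i (J k))).det ≠ 0 := by
  obtain ⟨J, hJ⟩ := BK.st_MINOR ℚ (Fin n) (Fin d) (fun r i => (z i r : ℚ)) (by
    intro x hx
    obtain ⟨b, hb⟩ := IsLocalization.exist_integer_multiples_of_finset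
      (nonZeroDivisors ℤ) (Finset.univ.image x)
    have hb0 : (b : ℤ) ≠ 0 := nonZeroDivisors.coe_ne_zero b
    have hb' : ∀ i, ∃ y : ℤ, (y : ℚ) = (b : ℤ) * x i := by
      intro i
      obtain ⟨y, hy⟩ := hb (x i) (Finset.mem_image_of_mem _ (Finset.mem_univ i))
      refine ⟨y, ?_⟩
      have := hy
      simp only [eq_intCast, zsmul_eq_mul] at this
      exact this
    choose y hy using hb'
    have hy0 : y = 0 := by
      apply sld_inj hz
      funext r
      have h1 := hx r
      have h2 : ((∑ i, y i * z i r : ℤ) : ℚ) = 0 := by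
        push_cast
        calc ∑ i, (y i : ℚ) * (z i r : ℚ) = (b : ℤ) * ∑ i, (z i r : ℚ) * x i := by
              rw [Finset.mul_sum]
              refine Finset.sum_congr rfl fun i _ => ?_
              rw [hy i]
              ring
          _ = 0 := by rw [h1, mul_zero]
      have h3 : ∑ i, y i * z i r = 0 := by exact_mod_cast h2
      simpa [Finset.sum_apply] using h3
    funext i
    have h1 := hy i
    rw [hy0] at h1
    simp only [Pi.zero_apply, Int.cast_zero] at h1
    have hb1 : ((b : ℤ) : ℚ) ≠ 0 := by exact_mod_cast hb0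
    rcases mul_eq_zero.1 h1.symm with h | h
    · exact absurd h hb1
    · exact h)
  refine ⟨J, fun h0 => hJ ?_⟩
  have h1 : (Matrix.of (fun k i => (z i (J k) : ℚ))) =
      (Matrix.of (fun k i => z i (J k))).map (Int.castRingHom ℚ) := by
    ext k i
    simp
  change (Matrix.of (fun k i => (z i (J k) : ℚ))).det = 0
  rw [h1, ← RingHom.mapMatrix_apply, ← RingHom.map_det, h0, map_zero]

theorem st_SLD : ST_SLD := by
  intro L _ _ n g0 g nrm G Z H d z w hd hz hnl
  have h00 : nrm 0 = 0 := by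
    have := H.smul 0 0
    simpa using this
  have hnn : ∀ a, 0 ≤ nrm a := fun a => (abs_nonneg _).trans (H.co0 a)
  have hzZ : ∀ i j, |((z i j : ℤ) : ℝ)| ≤ Z * w := by
    intro i j
    obtain ⟨Q, hQ, k, hk⟩ := hnl i
    have hQ0 : (0 : ℝ) < Q := by exact_mod_cast hQ
    have h1 := H.coo (k, (Q : ℤ) • z i) j
    have hZ : 0 ≤ Z := by
      by_contra hc
      push Not at hc
      obtain ⟨i0⟩ : Nonempty (Fin d) := ⟨i⟩
      have h3 := H.coo (0, fun _ => 1) j
      have h4 : (0 : ℝ) < |(((0, fun _ => 1) : ℤ × (Fin n → ℤ)).2 j : ℝ)| := by simp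
      have h5 := mul_nonpos_of_nonpos_of_nonneg hc.le (hnn (0, fun _ => 1))
      linarith
    have h2 : |(((Q : ℤ) * z i j : ℤ) : ℝ)| ≤ Z * (Q * w) := by
      refine le_trans ?_ (mul_le_mul_of_nonneg_left hk hZ)
      simpa using h1
    push_cast at h2
    rw [abs_mul, abs_of_pos hQ0] at h2
    have h3 : (Q : ℝ) * |(z i j : ℝ)| ≤ Q * (Z * w) := by
      refine h2.trans (le_of_eq ?_)
      ring
    exact le_of_mul_le_mul_left h3 hQ0
  let i0 : Fin d := ⟨0, hd⟩
  obtain ⟨j0, hj0⟩ : ∃ j, z i0 j ≠ 0 := by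
    by_contra hc
    push Not at hc
    exact hz.ne_zero i0 (funext hc)
  have hZw : 1 ≤ Z * w := by
    refine le_trans ?_ (hzZ i0 j0)
    rw [← Int.cast_abs]
    exact_mod_cast Int.one_le_abs hj0
  have hZ : 0 ≤ Z := by
    by_contra hc
    push Not at hc
    have h3 := H.coo (0, fun _ => 1) j0
    have h4 : (0 : ℝ) < |(((0, fun _ => 1) : ℤ × (Fin n → ℤ)).2 j0 : ℝ)| := by simp
    have h5 := mul_nonpos_of_nonpos_of_nonneg hc.le (hnn (0, fun _ => 1))
    linarith
  refine ⟨hZw, ?_⟩
  let E : ℤ × (Fin d → ℤ) → ℤ × (Fin n → ℤ) := fun a => (a.1, ∑ i, a.2 i • z i)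
  have hE : ∀ a, E a = (a.1, ∑ i, a.2 i • z i) := fun a => rfl
  have hEadd : ∀ a b, E (a + b) = E a + E b := by
    intro a b
    refine Prod.ext rfl ?_
    simp only [hE, Prod.snd_add, Pi.add_apply, add_smul, Finset.sum_add_distrib]
  have hEsmul : ∀ (k : ℤ) a, E (k • a) = k • E a := by
    intro k a
    refine Prod.ext rfl ?_
    simp only [hE, Prod.smul_snd, Pi.smul_apply, Finset.smul_sum, smul_eq_mul, mul_smul]
  have hEinj : Function.Injective E := by
    intro a b hab
    have h1 : a.1 = b.1 := (Prod.ext_iff.1 hab).1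
    have h2 : ∑ i, a.2 i • z i = ∑ i, b.2 i • z i := (Prod.ext_iff.1 hab).2
    have h3 : a.2 - b.2 = 0 := by
      apply sld_inj hz
      simp only [Pi.sub_apply, sub_smul, Finset.sum_sub_distrib, h2, sub_self]
    exact Prod.ext h1 (sub_eq_zero.1 h3)
  have hprod : ∀ a : ℤ × (Fin d → ℤ), g0 ^ a.1 * ∏ i, (∏ j, g j ^ (z i j)) ^ (a.2 i) =
      g0 ^ (E a).1 * ∏ j, g j ^ ((E a).2 j) := by
    intro a
    rw [sld_prod g H.ne]
  refine ⟨H.ne0, fun i => Finset.prod_ne_zero_iff.2 fun j _ => zpow_ne_zero _ (H.ne j), ?_, ?_,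
    ?_, ?_, ?_, ?_, ?_, H.tor, ?_⟩
  · intro a b
    change nrm (E (a + b)) ≤ nrm (E a) + nrm (E b)
    rw [hEadd]
    exact H.add _ _
  · intro k a
    change nrm (E (k • a)) = _ * nrm (E a)
    rw [hEsmul]
    exact H.smul _ _
  · intro a τ
    rw [hprod a]
    exact H.conj (E a) τ
  · intro a
    obtain ⟨q, h1, h2, h3⟩ := H.den (E a)
    refine ⟨q, h1, h2, ?_⟩
    rw [hprod a]
    exact h3
  · intro a
    exact H.co0 (E a)
  · intro a i
    change |((a.2 i : ℤ) : ℝ)| ≤ _ * nrm (E a)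
    obtain ⟨J, hJ⟩ := sld_minor hz
    set M : Matrix (Fin d) (Fin d) ℤ := Matrix.of (fun k i => z i (J k)) with hM
    let y : Fin d → ℤ := fun k => (E a).2 (J k)
    have hy : M.mulVec a.2 = y := by
      funext k
      simp only [Matrix.mulVec, dotProduct, hM, Matrix.of_apply, y, hE, Finset.sum_apply,
        Pi.smul_apply, smul_eq_mul]
      refine Finset.sum_congr rfl fun i _ => mul_comm _ _
    have hcr : M.det * a.2 i = (M.updateCol i y).det := by
      rw [← hy]
      have := Matrix.cramer_eq_adjugate_mulVec M (M.mulVec a.2)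
      have h1 := congrFun this i
      rw [Matrix.cramer_apply] at h1
      rw [h1, Matrix.mulVec_mulVec, Matrix.adjugate_mul, Matrix.smul_mulVec, Matrix.one_mulVec]
      simp
    have hye : ∀ k, |((y k : ℤ) : ℝ)| ≤ Z * nrm (E a) := fun k => H.coo (E a) (J k)
    have hbound : |(((M.updateCol i y).det : ℤ) : ℝ)| ≤
        (d.factorial : ℝ) * ((Z * w) ^ (d - 1) * (Z * nrm (E a))) := by
      rw [Matrix.det_apply]
      push_cast
      refine (Finset.abs_sum_le_sum_abs _ _).trans ?_
      have hterm : ∀ σ ∈ (Finset.univ : Finset (Equiv.Perm (Fin d))),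
          |(((Equiv.Perm.sign σ • ∏ k, (M.updateCol i y) (σ k) k : ℤ)) : ℝ)| ≤
            (Z * w) ^ (d - 1) * (Z * nrm (E a)) := by
        intro σ _
        have e1 : |(((Equiv.Perm.sign σ • ∏ k, (M.updateCol i y) (σ k) k : ℤ)) : ℝ)| =
            ∏ k, |(((M.updateCol i y) (σ k) k : ℤ) : ℝ)| := by
          rcases Int.units_eq_one_or (Equiv.Perm.sign σ) with h | h <;>
            simp [h, Finset.abs_prod]
        rw [e1, ← Finset.prod_erase_mul _ _ (Finset.mem_univ i)]
        refine mul_le_mul ?_ ?_ (abs_nonneg _) (pow_nonneg (zero_le_one.trans hZw) _)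
        · calc ∏ k ∈ Finset.univ.erase i, |(((M.updateCol i y) (σ k) k : ℤ) : ℝ)| ≤
              ∏ k ∈ Finset.univ.erase i, (Z * w) := by
                refine Finset.prod_le_prod (fun k _ => abs_nonneg _) fun k hk => ?_
                rw [Matrix.updateCol_ne (Finset.ne_of_mem_erase hk)]
                exact hzZ _ _
            _ = (Z * w) ^ (d - 1) := by
                rw [Finset.prod_const, Finset.card_erase_of_mem (Finset.mem_univ i),
                  Finset.card_univ, Fintype.card_fin]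
        · rw [Matrix.updateCol_self]
          exact hye _
      refine (Finset.sum_le_sum fun σ hσ => by simpa using hterm σ hσ).trans (le_of_eq ?_)
      rw [Finset.sum_const, Finset.card_univ, Fintype.card_perm, Fintype.card_fin, nsmul_eq_mul]
    have hdet1 : (1 : ℝ) ≤ |((M.det : ℤ) : ℝ)| := by
      rw [← Int.cast_abs]
      exact_mod_cast Int.one_le_abs hJ
    calc |((a.2 i : ℤ) : ℝ)| ≤ |((M.det : ℤ) : ℝ)| * |((a.2 i : ℤ) : ℝ)| :=
          le_mul_of_one_le_left (abs_nonneg _) hdet1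
      _ = |(((M.updateCol i y).det : ℤ) : ℝ)| := by
          rw [← abs_mul, ← hcr]
          push_cast
          rfl
      _ ≤ (d.factorial : ℝ) * ((Z * w) ^ (d - 1) * (Z * nrm (E a))) := hbound
      _ = (d.factorial : ℝ) * (Z * w) ^ (d - 1) * Z * nrm (E a) := by ring
  · intro ρ
    exact (H.fin ρ).preimage hEinj.injOn
  · intro a ha h1
    rw [hprod a] at h1
    refine H.ker (E a) (fun h2 => ha ?_) h1
    have h3 : E 0 = 0 := by
      refine Prod.ext rfl ?_
      simp [hE]
    exact hEinj (h2.trans h3.symm)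

end Pool.Helper99.SZ
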